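import Mathlib

/-! The corner cutting family of convex sets: the time function `tau` on the standard triangle,
convexity and closedness of its superlevel sets. -/

set_option autoImplicit false

open MeasureTheory Set Filter Topology

namespace Pool.Agent.R489.SPD

/-- The plane with its coordinates. -/
abbrev E : Type := Fin 2 → ℝ

/-- The standard triangle. -/
def T : Set E := {x | 0 ≤ x 0 ∧ 0 ≤ x 1 ∧ x 0 + x 1 ≤ 1}

/-- Inverse of the first affine map. -/
noncomputable def g1 (x : E) : E := ![2 * x 0, 3 / 2 * x 1]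

/-- Inverse of the second affine map. -/
noncomputable def g2 (x : E) : E := ![2 * x 0 + 3 / 2 * x 1 - 1, 3 / 2 * x 1]

/-- Inverse of the third affine map. -/
noncomputable def g3 (x : E) : E := ![x 0, 2 * x 0 + 3 * x 1 - 2]

@[simp] theorem g1_zero (x : E) : g1 x 0 = 2 * x 0 := rfl
@[simp] theorem g1_one (x : E) : g1 x 1 = 3 / 2 * x 1 := rfl
@[simp] theorem g2_zero (x : E) : g2 x 0 = 2 * x 0 + 3 / 2 * x 1 - 1 := rfl
@[simp] theorem g2_one (x : E) : g2 x 1 = 3 / 2 * x 1 := rfl
@[simp] theorem g3_zero (x : E) : g3 x 0 = x 0 := rfl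
@[simp] theorem g3_one (x : E) : g3 x 1 = 2 * x 0 + 3 * x 1 - 2 := rfl

/-- Approximations of the time at which a point is removed. -/
noncomputable def tt : ℕ → E → ℝ
  | 0, _ => 1
  | k + 1, x =>
    if 1 ≤ x 0 + 3 / 2 * x 1 then (2 + tt k (g3 x)) / 3
    else if 1 ≤ 2 * x 0 + 3 / 2 * x 1 then (1 + tt k (g2 x)) / 3
    else tt k (g1 x) / 3

theorem tt_zero (x : E) : tt 0 x = 1 := rfl

theorem tt_succ3 (k : ℕ) (x : E) (h : 1 ≤ x 0 + 3 / 2 * x 1) :
    tt (k + 1) x = (2 + tt k (g3 x)) / 3 := by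
  rw [tt, if_pos h]

theorem tt_succ2 (k : ℕ) (x : E) (h : x 0 + 3 / 2 * x 1 < 1) (h' : 1 ≤ 2 * x 0 + 3 / 2 * x 1) :
    tt (k + 1) x = (1 + tt k (g2 x)) / 3 := by
  rw [tt, if_neg (not_le.mpr h), if_pos h']

theorem tt_succ1 (k : ℕ) (x : E) (h : x 0 + 3 / 2 * x 1 < 1) (h' : 2 * x 0 + 3 / 2 * x 1 < 1) :
    tt (k + 1) x = tt k (g1 x) / 3 := by
  rw [tt, if_neg (not_le.mpr h), if_neg (not_le.mpr h')]

theorem tt_nonneg (k : ℕ) : ∀ x, 0 ≤ tt k x := by
  induction k with
  | zero => intro x; rw [tt_zero]; norm_num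
  | succ k ih =>
    intro x
    rw [tt]
    split_ifs
    · have := ih (g3 x); linarith
    · have := ih (g2 x); linarith
    · have := ih (g1 x); linarith

theorem tt_le_one (k : ℕ) : ∀ x, tt k x ≤ 1 := by
  induction k with
  | zero => intro x; rw [tt_zero]
  | succ k ih =>
    intro x
    rw [tt]
    split_ifs
    · have := ih (g3 x); linarith
    · have := ih (g2 x); linarith
    · have := ih (g1 x); linarith

theorem tt_succ_le (k : ℕ) : ∀ x, tt (k + 1) x ≤ tt k x := by
  induction k with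
  | zero => intro x; rw [tt_zero]; exact tt_le_one _ _
  | succ k ih =>
    intro x
    by_cases h : 1 ≤ x 0 + 3 / 2 * x 1
    · rw [tt_succ3 (k + 1) x h, tt_succ3 k x h]
      have := ih (g3 x)
      linarith
    · push Not at h
      by_cases h' : 1 ≤ 2 * x 0 + 3 / 2 * x 1
      · rw [tt_succ2 (k + 1) x h h', tt_succ2 k x h h']
        have := ih (g2 x)
        linarith
      · push Not at h'
        rw [tt_succ1 (k + 1) x h h', tt_succ1 k x h h']
        have := ih (g1 x)
        linarith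

theorem tt_anti (x : E) : Antitone fun k => tt k x := antitone_nat_of_succ_le fun k => tt_succ_le k x

theorem tt_bdd (x : E) : BddBelow (range fun k => tt k x) :=
  ⟨0, by rintro _ ⟨k, rfl⟩; exact tt_nonneg k x⟩

/-- The time at which a point is removed. -/
noncomputable def tau (x : E) : ℝ := ⨅ k, tt k x

theorem tau_tendsto (x : E) : Tendsto (fun k => tt k x) atTop (𝓝 (tau x)) :=
  tendsto_atTop_ciInf (tt_anti x) (tt_bdd x)

theorem tau_nonneg (x : E) : 0 ≤ tau x := le_ciInf fun k => tt_nonneg k x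

theorem tau_le (k : ℕ) (x : E) : tau x ≤ tt k x := ciInf_le (tt_bdd x) k

theorem tau_le_one (x : E) : tau x ≤ 1 := (tau_le 0 x).trans (tt_le_one 0 x)

theorem le_tau_iff (s : ℝ) (x : E) : s ≤ tau x ↔ ∀ k, s ≤ tt k x :=
  ⟨fun h k => h.trans (tau_le k x), fun h => le_ciInf h⟩

theorem tau_lt_iff (s : ℝ) (x : E) : tau x < s ↔ ∃ k, tt k x < s := by
  rw [← not_le, le_tau_iff]
  push Not
  rfl

theorem tau_3 (x : E) (h : 1 ≤ x 0 + 3 / 2 * x 1) : tau x = (2 + tau (g3 x)) / 3 := by
  have h1 : Tendsto (fun k => tt (k + 1) x) atTop (𝓝 (tau x)) :=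
    (tau_tendsto x).comp (tendsto_add_atTop_nat 1)
  have h2 : Tendsto (fun k => tt (k + 1) x) atTop (𝓝 ((2 + tau (g3 x)) / 3)) := by
    simp_rw [tt_succ3 _ x h]
    exact ((tau_tendsto (g3 x)).const_add 2).div_const 3
  exact tendsto_nhds_unique h1 h2

theorem tau_2 (x : E) (h : x 0 + 3 / 2 * x 1 < 1) (h' : 1 ≤ 2 * x 0 + 3 / 2 * x 1) :
    tau x = (1 + tau (g2 x)) / 3 := by
  have h1 : Tendsto (fun k => tt (k + 1) x) atTop (𝓝 (tau x)) :=
    (tau_tendsto x).comp (tendsto_add_atTop_nat 1)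
  have h2 : Tendsto (fun k => tt (k + 1) x) atTop (𝓝 ((1 + tau (g2 x)) / 3)) := by
    simp_rw [tt_succ2 _ x h h']
    exact ((tau_tendsto (g2 x)).const_add 1).div_const 3
  exact tendsto_nhds_unique h1 h2

theorem tau_1 (x : E) (h : x 0 + 3 / 2 * x 1 < 1) (h' : 2 * x 0 + 3 / 2 * x 1 < 1) :
    tau x = tau (g1 x) / 3 := by
  have h1 : Tendsto (fun k => tt (k + 1) x) atTop (𝓝 (tau x)) :=
    (tau_tendsto x).comp (tendsto_add_atTop_nat 1)
  have h2 : Tendsto (fun k => tt (k + 1) x) atTop (𝓝 (tau (g1 x) / 3)) := by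
    simp_rw [tt_succ1 _ x h h']
    exact (tau_tendsto (g1 x)).div_const 3
  exact tendsto_nhds_unique h1 h2

/-- The chord is never removed. -/
theorem g3_chord (x : E) (h : x 0 + x 1 = 1) : g3 x = x := by
  funext i
  fin_cases i
  · rfl
  · show 2 * x 0 + 3 * x 1 - 2 = x 1
    linarith

theorem tt_chord (k : ℕ) (x : E) (hx : x ∈ T) (h : x 0 + x 1 = 1) : tt k x = 1 := by
  induction k with
  | zero => rfl
  | succ k ih =>
    have h1 : 1 ≤ x 0 + 3 / 2 * x 1 := by
      have := hx.2.1
      linarith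
    rw [tt_succ3 k x h1, g3_chord x h, ih]
    norm_num

theorem tau_chord (x : E) (hx : x ∈ T) (h : x 0 + x 1 = 1) : tau x = 1 := by
  apply le_antisymm (tau_le_one x)
  rw [le_tau_iff]
  intro k
  rw [tt_chord k x hx h]

/-! ### Convexity -/

theorem T_convex : Convex ℝ T := by
  intro x hx y hy a b ha hb hab
  obtain ⟨h1, h2, h3⟩ := hx
  obtain ⟨h4, h5, h6⟩ := hy
  refine ⟨?_, ?_, ?_⟩
  · show 0 ≤ a * x 0 + b * y 0
    positivity
  · show 0 ≤ a * x 1 + b * y 1
    positivity
  · show a * x 0 + b * y 0 + (a * x 1 + b * y 1) ≤ 1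
    nlinarith [mul_le_mul_of_nonneg_left h3 ha, mul_le_mul_of_nonneg_left h6 hb]

/-- The part of the quadrant beyond the chord. -/
def Far : Set E := {y | 0 ≤ y 0 ∧ 0 ≤ y 1 ∧ 1 ≤ y 0 + y 1}

theorem hat_aux (L : Set E) (hL : Convex ℝ L) (hLT : L ⊆ T)
    (hch : ∀ x ∈ T, x 0 + x 1 = 1 → x ∈ L) (x y : E) (hx : x ∈ L) (hy : y ∈ Far) (a b : ℝ)
    (ha : 0 ≤ a) (hb : 0 ≤ b) (hab : a + b = 1) : a • x + b • y ∈ L ∪ Far := by
  obtain ⟨hx1, hx2, hx3⟩ := hLT hx
  obtain ⟨hy1, hy2, hy3⟩ := hy
  by_cases hz : 1 ≤ (a * x 0 + b * y 0) + (a * x 1 + b * y 1)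
  · right
    refine ⟨?_, ?_, hz⟩
    · show 0 ≤ a * x 0 + b * y 0
      positivity
    · show 0 ≤ a * x 1 + b * y 1
      positivity
  · left
    push Not at hz
    have ha' : a = 1 - b := by linarith
    subst ha'
    have hx4 : x 0 + x 1 < 1 := by
      by_contra hcon
      push Not at hcon
      nlinarith [mul_le_mul_of_nonneg_left hcon ha, mul_le_mul_of_nonneg_left hy3 hb]
    set fx := x 0 + x 1 with hfx
    set fy := y 0 + y 1 with hfy
    have hd : 0 < fy - fx := by linarith
    set θ := (1 - fx) / (fy - fx) with hθ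
    have hθ0 : 0 < θ := div_pos (by linarith) hd
    have hθ1 : θ ≤ 1 := by
      rw [hθ, div_le_one hd]
      linarith
    have hθm : θ * (fy - fx) = 1 - fx := by
      rw [hθ]
      field_simp
    have hbθ : b ≤ θ := by
      rw [hθ, le_div_iff₀ hd]
      nlinarith
    have hw : (1 - θ) • x + θ • y ∈ L := by
      apply hch
      · refine ⟨?_, ?_, ?_⟩
        · show 0 ≤ (1 - θ) * x 0 + θ * y 0
          have : 0 ≤ 1 - θ := by linarith
          positivity
        · show 0 ≤ (1 - θ) * x 1 + θ * y 1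
          have : 0 ≤ 1 - θ := by linarith
          positivity
        · show (1 - θ) * x 0 + θ * y 0 + ((1 - θ) * x 1 + θ * y 1) ≤ 1
          nlinarith
      · show (1 - θ) * x 0 + θ * y 0 + ((1 - θ) * x 1 + θ * y 1) = 1
        nlinarith
    have h1 : 0 ≤ b / θ := by positivity
    have h2 : b / θ ≤ 1 := by
      rw [div_le_one hθ0]
      exact hbθ
    have h3 := hL hx hw (sub_nonneg.mpr h2) h1 (by ring)
    have h4 : (1 - b / θ) • x + (b / θ) • ((1 - θ) • x + θ • y) = (1 - b) • x + b • y := by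
      funext i
      simp only [Pi.add_apply, Pi.smul_apply, smul_eq_mul]
      field_simp
      ring
    rw [h4] at h3
    exact h3

theorem hat_convex (L : Set E) (hL : Convex ℝ L) (hLT : L ⊆ T)
    (hch : ∀ x ∈ T, x 0 + x 1 = 1 → x ∈ L) : Convex ℝ (L ∪ Far) := by
  intro x hx y hy a b ha hb hab
  rcases hx with hx | hx
  · rcases hy with hy | hy
    · exact Or.inl (hL hx hy ha hb hab)
    · exact hat_aux L hL hLT hch x y hx hy a b ha hb hab
  · rcases hy with hy | hy
    · rw [add_comm]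
      exact hat_aux L hL hLT hch y x hy hx b a hb ha (by rw [add_comm]; exact hab)
    · right
      obtain ⟨h1, h2, h3⟩ := hx
      obtain ⟨h4, h5, h6⟩ := hy
      refine ⟨?_, ?_, ?_⟩
      · show 0 ≤ a * x 0 + b * y 0
        positivity
      · show 0 ≤ a * x 1 + b * y 1
        positivity
      · show 1 ≤ a * x 0 + b * y 0 + (a * x 1 + b * y 1)
        nlinarith [mul_le_mul_of_nonneg_left h3 ha, mul_le_mul_of_nonneg_left h6 hb]

theorem g1_comb (x y : E) (a b : ℝ) : g1 (a • x + b • y) = a • g1 x + b • g1 y := by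
  funext i
  fin_cases i
  · show 2 * (a * x 0 + b * y 0) = a * (2 * x 0) + b * (2 * y 0)
    ring
  · show 3 / 2 * (a * x 1 + b * y 1) = a * (3 / 2 * x 1) + b * (3 / 2 * y 1)
    ring

theorem g2_comb (x y : E) (a b : ℝ) (hab : a + b = 1) :
    g2 (a • x + b • y) = a • g2 x + b • g2 y := by
  have hb : b = 1 - a := by linarith
  subst hb
  funext i
  fin_cases i
  · show 2 * (a * x 0 + (1 - a) * y 0) + 3 / 2 * (a * x 1 + (1 - a) * y 1) - 1 =
      a * (2 * x 0 + 3 / 2 * x 1 - 1) + (1 - a) * (2 * y 0 + 3 / 2 * y 1 - 1)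
    ring
  · show 3 / 2 * (a * x 1 + (1 - a) * y 1) = a * (3 / 2 * x 1) + (1 - a) * (3 / 2 * y 1)
    ring

theorem g3_comb (x y : E) (a b : ℝ) (hab : a + b = 1) :
    g3 (a • x + b • y) = a • g3 x + b • g3 y := by
  have hb : b = 1 - a := by linarith
  subst hb
  funext i
  fin_cases i
  · show a * x 0 + (1 - a) * y 0 = a * x 0 + (1 - a) * y 0
    ring
  · show 2 * (a * x 0 + (1 - a) * y 0) + 3 * (a * x 1 + (1 - a) * y 1) - 2 =
      a * (2 * x 0 + 3 * x 1 - 2) + (1 - a) * (2 * y 0 + 3 * y 1 - 2)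
    ring

theorem g1_cont : Continuous g1 := by
  apply continuous_pi
  intro i
  fin_cases i
  · show Continuous fun x : E => 2 * x 0
    fun_prop
  · show Continuous fun x : E => 3 / 2 * x 1
    fun_prop

theorem g2_cont : Continuous g2 := by
  apply continuous_pi
  intro i
  fin_cases i
  · show Continuous fun x : E => 2 * x 0 + 3 / 2 * x 1 - 1
    fun_prop
  · show Continuous fun x : E => 3 / 2 * x 1
    fun_prop

theorem g3_cont : Continuous g3 := by
  apply continuous_pi
  intro i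
  fin_cases i
  · show Continuous fun x : E => x 0
    fun_prop
  · show Continuous fun x : E => 2 * x 0 + 3 * x 1 - 2
    fun_prop

theorem T_closed : IsClosed T := by
  have h1 : IsClosed {x : E | 0 ≤ x 0} := isClosed_le continuous_const (continuous_apply 0)
  have h2 : IsClosed {x : E | 0 ≤ x 1} := isClosed_le continuous_const (continuous_apply 1)
  have h3 : IsClosed {x : E | x 0 + x 1 ≤ 1} :=
    isClosed_le ((continuous_apply 0).add (continuous_apply 1)) continuous_const
  exact h1.inter (h2.inter h3)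

theorem Far_closed : IsClosed Far := by
  have h1 : IsClosed {x : E | 0 ≤ x 0} := isClosed_le continuous_const (continuous_apply 0)
  have h2 : IsClosed {x : E | 0 ≤ x 1} := isClosed_le continuous_const (continuous_apply 1)
  have h3 : IsClosed {x : E | 1 ≤ x 0 + x 1} :=
    isClosed_le continuous_const ((continuous_apply 0).add (continuous_apply 1))
  exact h1.inter (h2.inter h3)

theorem T_compact : IsCompact T := by
  refine IsCompact.of_isClosed_subset (isCompact_Icc (a := (0 : E)) (b := 1)) T_closed ?_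
  rintro x ⟨h1, h2, h3⟩
  constructor
  · intro i
    fin_cases i
    · exact h1
    · exact h2
  · intro i
    fin_cases i
    · show x 0 ≤ 1
      linarith
    · show x 1 ≤ 1
      linarith

/-- Superlevel sets of the approximations. -/
def A (k : ℕ) (s : ℝ) : Set E := {x | x ∈ T ∧ s ≤ tt k x}

theorem A_sub (k : ℕ) (s : ℝ) : A k s ⊆ T := fun _ h => h.1

theorem A_chord (k : ℕ) (s : ℝ) (hs : s ≤ 1) (x : E) (hx : x ∈ T) (h : x 0 + x 1 = 1) :
    x ∈ A k s := ⟨hx, by rw [tt_chord k x hx h]; exact hs⟩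

theorem A_succ1 (k : ℕ) (s : ℝ) (hs : s ≤ 1 / 3) :
    A (k + 1) s = T ∩ g1 ⁻¹' (A k (3 * s) ∪ Far) := by
  ext x
  constructor
  · rintro ⟨hx, hs'⟩
    refine ⟨hx, ?_⟩
    obtain ⟨h1, h2, h3⟩ := hx
    by_cases h : 1 ≤ 2 * x 0 + 3 / 2 * x 1
    · right
      exact ⟨by simp; exact h1, by simp; exact h2, by simpa using h⟩
    · left
      push Not at h
      have h' : x 0 + 3 / 2 * x 1 < 1 := by linarith
      rw [tt_succ1 k x h' h] at hs'
      refine ⟨⟨by simp; exact h1, by simp; exact h2, by simpa using h.le⟩, by linarith⟩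
  · rintro ⟨hx, hs'⟩
    refine ⟨hx, ?_⟩
    obtain ⟨h1, h2, h3⟩ := hx
    by_cases h4 : 1 ≤ x 0 + 3 / 2 * x 1
    · rw [tt_succ3 k x h4]
      have := tt_nonneg k (g3 x)
      linarith
    · push Not at h4
      by_cases h : 1 ≤ 2 * x 0 + 3 / 2 * x 1
      · rw [tt_succ2 k x h4 h]
        have := tt_nonneg k (g2 x)
        linarith
      · push Not at h
        rw [tt_succ1 k x h4 h]
        rcases hs' with hs' | hs'
        · have := hs'.2
          linarith
        · have := hs'.2.2
          simp only [g1_zero, g1_one] at this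
          linarith

theorem A_succ2 (k : ℕ) (s : ℝ) (hs0 : 1 / 3 < s) (hs : s ≤ 2 / 3) :
    A (k + 1) s = T ∩ g2 ⁻¹' (A k (3 * s - 1) ∪ Far) := by
  ext x
  constructor
  · rintro ⟨hx, hs'⟩
    refine ⟨hx, ?_⟩
    obtain ⟨h1, h2, h3⟩ := hx
    by_cases h : 1 ≤ x 0 + 3 / 2 * x 1
    · right
      refine ⟨?_, by simp; exact h2, ?_⟩
      · simp only [g2_zero]; linarith
      · simp only [g2_zero, g2_one]; linarith
    · left
      push Not at h
      by_cases h' : 1 ≤ 2 * x 0 + 3 / 2 * x 1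
      · rw [tt_succ2 k x h h'] at hs'
        refine ⟨⟨?_, by simp; exact h2, ?_⟩, by linarith⟩
        · simp only [g2_zero]; linarith
        · simp only [g2_zero, g2_one]; linarith
      · push Not at h'
        rw [tt_succ1 k x h h'] at hs'
        have := tt_le_one k (g1 x)
        linarith
  · rintro ⟨hx, hs'⟩
    refine ⟨hx, ?_⟩
    obtain ⟨h1, h2, h3⟩ := hx
    by_cases h4 : 1 ≤ x 0 + 3 / 2 * x 1
    · rw [tt_succ3 k x h4]
      have := tt_nonneg k (g3 x)
      linarith
    · push Not at h4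
      rcases hs' with hs' | hs'
      · have h5 := hs'.1.1
        simp only [g2_zero] at h5
        rw [tt_succ2 k x h4 (by linarith)]
        have := hs'.2
        linarith
      · have := hs'.2.2
        simp only [g2_zero, g2_one] at this
        linarith

theorem A_succ3 (k : ℕ) (s : ℝ) (hs0 : 2 / 3 < s) :
    A (k + 1) s = g3 ⁻¹' (A k (3 * s - 2)) := by
  ext x
  constructor
  · rintro ⟨hx, hs'⟩
    obtain ⟨h1, h2, h3⟩ := hx
    by_cases h : 1 ≤ x 0 + 3 / 2 * x 1
    · rw [tt_succ3 k x h] at hs'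
      refine ⟨⟨by simp; exact h1, ?_, ?_⟩, by linarith⟩
      · simp only [g3_one]; linarith
      · simp only [g3_zero, g3_one]; linarith
    · push Not at h
      by_cases h' : 1 ≤ 2 * x 0 + 3 / 2 * x 1
      · rw [tt_succ2 k x h h'] at hs'
        have := tt_le_one k (g2 x)
        linarith
      · push Not at h'
        rw [tt_succ1 k x h h'] at hs'
        have := tt_le_one k (g1 x)
        linarith
  · rintro ⟨⟨h1, h2, h3⟩, hs'⟩
    simp only [g3_zero, g3_one] at h1 h2 h3
    refine ⟨⟨h1, by linarith, by linarith⟩, ?_⟩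
    rw [tt_succ3 k x (by linarith)]
    linarith

theorem A_conv_closed (k : ℕ) : ∀ s ≤ 1, Convex ℝ (A k s) ∧ IsClosed (A k s) := by
  induction k with
  | zero =>
    intro s hs
    have : A 0 s = T := by
      ext x
      exact ⟨fun h => h.1, fun h => ⟨h, by rw [tt_zero]; exact hs⟩⟩
    rw [this]
    exact ⟨T_convex, T_closed⟩
  | succ k ih =>
    intro s hs
    by_cases h1 : s ≤ 1 / 3
    · rw [A_succ1 k s h1]
      obtain ⟨hc, hcl⟩ := ih (3 * s) (by linarith)
      constructor
      · intro x hx y hy a b ha hb hab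
        refine ⟨T_convex hx.1 hy.1 ha hb hab, ?_⟩
        show g1 (a • x + b • y) ∈ A k (3 * s) ∪ Far
        rw [g1_comb]
        exact hat_convex _ hc (A_sub _ _) (A_chord k _ (by linarith)) hx.2 hy.2 ha hb hab
      · exact T_closed.inter ((hcl.union Far_closed).preimage g1_cont)
    · push Not at h1
      by_cases h2 : s ≤ 2 / 3
      · rw [A_succ2 k s h1 h2]
        obtain ⟨hc, hcl⟩ := ih (3 * s - 1) (by linarith)
        constructor
        · intro x hx y hy a b ha hb hab
          refine ⟨T_convex hx.1 hy.1 ha hb hab, ?_⟩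
          show g2 (a • x + b • y) ∈ A k (3 * s - 1) ∪ Far
          rw [g2_comb x y a b hab]
          exact hat_convex _ hc (A_sub _ _) (A_chord k _ (by linarith)) hx.2 hy.2 ha hb hab
        · exact T_closed.inter ((hcl.union Far_closed).preimage g2_cont)
      · push Not at h2
        rw [A_succ3 k s h2]
        obtain ⟨hc, hcl⟩ := ih (3 * s - 2) (by linarith)
        constructor
        · intro x hx y hy a b ha hb hab
          show g3 (a • x + b • y) ∈ A k (3 * s - 2)
          rw [g3_comb x y a b hab]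
          exact hc hx hy ha hb hab
        · exact hcl.preimage g3_cont

/-- The family. -/
def L (s : ℝ) : Set E := {x | x ∈ T ∧ s ≤ tau x}

theorem L_eq (s : ℝ) : L s = ⋂ k, A k s := by
  ext x
  simp only [L, A, mem_iInter, mem_ofPred_eq, le_tau_iff]
  constructor
  · rintro ⟨h1, h2⟩ k
    exact ⟨h1, h2 k⟩
  · intro h
    exact ⟨(h 0).1, fun k => (h k).2⟩

theorem L_empty (s : ℝ) (hs : 1 < s) : L s = ∅ := by
  ext x
  simp only [L, mem_ofPred_eq, mem_empty_iff_false, iff_false, not_and, not_le]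
  intro _
  exact (tau_le_one x).trans_lt hs

theorem L_convex (s : ℝ) : Convex ℝ (L s) := by
  by_cases hs : s ≤ 1
  · rw [L_eq]
    exact convex_iInter fun k => (A_conv_closed k s hs).1
  · rw [L_empty s (not_le.mp hs)]
    exact convex_empty

theorem L_closed (s : ℝ) : IsClosed (L s) := by
  by_cases hs : s ≤ 1
  · rw [L_eq]
    exact isClosed_iInter fun k => (A_conv_closed k s hs).2
  · rw [L_empty s (not_le.mp hs)]
    exact isClosed_empty

theorem L_compact (s : ℝ) : IsCompact (L s) :=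
  T_compact.of_isClosed_subset (L_closed s) fun _ h => h.1

end Pool.Agent.R489.SPD
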