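import Pool.Agent.R489.SP.D1

/-! The corner cutting family of convex sets: areas. -/

set_option autoImplicit false

open MeasureTheory Set Filter Topology

namespace Pool.Agent.R489.SPD

theorem vol_pre_aux (M : Matrix (Fin 2) (Fin 2) ℝ) (t : E) (hM : M.det = 3) (S : Set E) :
    volume ((fun x => Matrix.toLin' M x + t) ⁻¹' S) = ENNReal.ofReal (1 / 3) * volume S := by
  have h1 : ((fun x => Matrix.toLin' M x + t) ⁻¹' S) =
      (Matrix.toLin' M) ⁻¹' ((fun y => y + t) ⁻¹' S) := rfl
  have hdet : LinearMap.det (Matrix.toLin' M) = 3 := by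
    rw [LinearMap.det_toLin', hM]
  rw [h1, Measure.addHaar_preimage_linearMap volume (by rw [hdet]; norm_num), hdet,
    measure_preimage_add_right]
  congr 2
  rw [abs_of_pos (by norm_num)]
  norm_num

theorem g1_form (x : E) : g1 x = Matrix.toLin' !![2, 0; 0, 3 / 2] x + ![0, 0] := by
  funext i
  fin_cases i <;> simp [g1, Matrix.toLin'_apply, dotProduct]

theorem g2_form (x : E) : g2 x = Matrix.toLin' !![2, 3 / 2; 0, 3 / 2] x + ![-1, 0] := by
  funext i
  fin_cases i <;> simp [g2, Matrix.toLin'_apply, dotProduct]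
  ring

theorem g3_form (x : E) : g3 x = Matrix.toLin' !![1, 0; 2, 3] x + ![0, -2] := by
  funext i
  fin_cases i <;> simp [g3, Matrix.toLin'_apply, dotProduct]
  ring

theorem vol_g1 (S : Set E) : volume (g1 ⁻¹' S) = ENNReal.ofReal (1 / 3) * volume S := by
  have : g1 = fun x => Matrix.toLin' !![2, 0; 0, 3 / 2] x + ![0, 0] := funext g1_form
  rw [this]
  apply vol_pre_aux
  rw [Matrix.det_fin_two_of]
  norm_num

theorem vol_g2 (S : Set E) : volume (g2 ⁻¹' S) = ENNReal.ofReal (1 / 3) * volume S := by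
  have : g2 = fun x => Matrix.toLin' !![2, 3 / 2; 0, 3 / 2] x + ![-1, 0] := funext g2_form
  rw [this]
  apply vol_pre_aux
  rw [Matrix.det_fin_two_of]
  norm_num

theorem vol_g3 (S : Set E) : volume (g3 ⁻¹' S) = ENNReal.ofReal (1 / 3) * volume S := by
  have : g3 = fun x => Matrix.toLin' !![1, 0; 2, 3] x + ![0, -2] := funext g3_form
  rw [this]
  apply vol_pre_aux
  rw [Matrix.det_fin_two_of]
  norm_num

theorem real_g1 (S : Set E) : volume.real (g1 ⁻¹' S) = volume.real S / 3 := by
  rw [Measure.real, vol_g1, ENNReal.toReal_mul, ENNReal.toReal_ofReal (by norm_num), Measure.real]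
  ring

theorem real_g2 (S : Set E) : volume.real (g2 ⁻¹' S) = volume.real S / 3 := by
  rw [Measure.real, vol_g2, ENNReal.toReal_mul, ENNReal.toReal_ofReal (by norm_num), Measure.real]
  ring

theorem real_g3 (S : Set E) : volume.real (g3 ⁻¹' S) = volume.real S / 3 := by
  rw [Measure.real, vol_g3, ENNReal.toReal_mul, ENNReal.toReal_ofReal (by norm_num), Measure.real]
  ring

/-- The triangle without the chord. -/
def T' : Set E := {x | 0 ≤ x 0 ∧ 0 ≤ x 1 ∧ x 0 + x 1 < 1}

theorem T'_sub : T' ⊆ T := fun _ h => ⟨h.1, h.2.1, h.2.2.le⟩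

theorem T_fin : volume T ≠ ⊤ := T_compact.measure_lt_top.ne

theorem fin_of_sub {S : Set E} (h : S ⊆ T) : volume S ≠ ⊤ :=
  ((measure_mono h).trans_lt T_compact.measure_lt_top).ne

/-- The area constant. -/
noncomputable def c : ℝ := volume.real T'

/-- Removed points of the approximations. -/
def R (k : ℕ) (s : ℝ) : Set E := {x | x ∈ T ∧ tt k x < s}

theorem R_sub (k : ℕ) (s : ℝ) (hs : s ≤ 1) : R k s ⊆ T' := by
  rintro x ⟨hx, h⟩
  refine ⟨hx.1, hx.2.1, ?_⟩
  rcases lt_or_eq_of_le hx.2.2 with h1 | h1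
  · exact h1
  · rw [tt_chord k x hx h1] at h
    linarith

theorem R_eq (k : ℕ) (s : ℝ) : R k s = T \ A k s := by
  ext x
  constructor
  · rintro ⟨hx, h⟩
    exact ⟨hx, fun h2 => absurd h2.2 (not_le.mpr h)⟩
  · rintro ⟨hx, h⟩
    refine ⟨hx, ?_⟩
    by_contra h2
    exact h ⟨hx, not_lt.mp h2⟩

theorem R_meas (k : ℕ) (s : ℝ) (hs : s ≤ 1) : MeasurableSet (R k s) := by
  rw [R_eq]
  exact T_closed.measurableSet.diff (A_conv_closed k s hs).2.measurableSet

theorem T'_meas : MeasurableSet T' := by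
  have h1 : IsClosed {x : E | 0 ≤ x 0} := isClosed_le continuous_const (continuous_apply 0)
  have h2 : IsClosed {x : E | 0 ≤ x 1} := isClosed_le continuous_const (continuous_apply 1)
  have h3 : IsOpen {x : E | x 0 + x 1 < 1} :=
    isOpen_lt ((continuous_apply 0).add (continuous_apply 1)) continuous_const
  exact h1.measurableSet.inter (h2.measurableSet.inter h3.measurableSet)

theorem R_succ1 (k : ℕ) (s : ℝ) (hs : s ≤ 1 / 3) : R (k + 1) s = g1 ⁻¹' R k (3 * s) := by
  ext x
  constructor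
  · rintro ⟨⟨h1, h2, h3⟩, hs'⟩
    by_cases h : 1 ≤ x 0 + 3 / 2 * x 1
    · rw [tt_succ3 k x h] at hs'
      have := tt_nonneg k (g3 x)
      linarith
    · push Not at h
      by_cases h' : 1 ≤ 2 * x 0 + 3 / 2 * x 1
      · rw [tt_succ2 k x h h'] at hs'
        have := tt_nonneg k (g2 x)
        linarith
      · push Not at h'
        rw [tt_succ1 k x h h'] at hs'
        refine ⟨⟨by simp; exact h1, by simp; exact h2, by simpa using h'.le⟩, by linarith⟩
  · intro hx
    have hx' : g1 x ∈ R k (3 * s) := hx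
    obtain ⟨h1, h2, h3⟩ := R_sub k (3 * s) (by linarith) hx'
    simp only [g1_zero, g1_one] at h1 h2 h3
    refine ⟨⟨by linarith, by linarith, by linarith⟩, ?_⟩
    rw [tt_succ1 k x (by linarith) h3]
    have := hx'.2
    linarith

theorem R_succ2 (k : ℕ) (s : ℝ) (hs0 : 1 / 3 < s) (hs : s ≤ 2 / 3) :
    R (k + 1) s = g1 ⁻¹' T' ∪ g2 ⁻¹' R k (3 * s - 1) := by
  ext x
  constructor
  · rintro ⟨⟨h1, h2, h3⟩, hs'⟩
    by_cases h : 1 ≤ x 0 + 3 / 2 * x 1
    · rw [tt_succ3 k x h] at hs'
      have := tt_nonneg k (g3 x)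
      linarith
    · push Not at h
      by_cases h' : 1 ≤ 2 * x 0 + 3 / 2 * x 1
      · rw [tt_succ2 k x h h'] at hs'
        right
        refine ⟨⟨?_, by simp; exact h2, ?_⟩, by linarith⟩
        · simp only [g2_zero]; linarith
        · simp only [g2_zero, g2_one]; linarith
      · push Not at h'
        left
        exact ⟨by simp; exact h1, by simp; exact h2, by simpa using h'⟩
  · rintro (hx | hx)
    · have hx' : g1 x ∈ T' := hx
      obtain ⟨h1, h2, h3⟩ := hx'
      simp only [g1_zero, g1_one] at h1 h2 h3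
      refine ⟨⟨by linarith, by linarith, by linarith⟩, ?_⟩
      rw [tt_succ1 k x (by linarith) h3]
      have := tt_le_one k (g1 x)
      linarith
    · have hx' : g2 x ∈ R k (3 * s - 1) := hx
      obtain ⟨h1, h2, h3⟩ := R_sub k (3 * s - 1) (by linarith) hx'
      simp only [g2_zero, g2_one] at h1 h2 h3
      refine ⟨⟨by linarith, by linarith, by linarith⟩, ?_⟩
      rw [tt_succ2 k x (by linarith) (by linarith)]
      have := hx'.2
      linarith

theorem R_succ3 (k : ℕ) (s : ℝ) (hs0 : 2 / 3 < s) (hs : s ≤ 1) :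
    R (k + 1) s = (g1 ⁻¹' T' ∪ g2 ⁻¹' T') ∪ g3 ⁻¹' R k (3 * s - 2) := by
  ext x
  constructor
  · rintro ⟨⟨h1, h2, h3⟩, hs'⟩
    by_cases h : 1 ≤ x 0 + 3 / 2 * x 1
    · rw [tt_succ3 k x h] at hs'
      right
      refine ⟨⟨by simp; exact h1, ?_, ?_⟩, by linarith⟩
      · simp only [g3_one]; linarith
      · simp only [g3_zero, g3_one]; linarith
    · push Not at h
      left
      by_cases h' : 1 ≤ 2 * x 0 + 3 / 2 * x 1
      · right
        refine ⟨?_, by simp; exact h2, ?_⟩
        · simp only [g2_zero]; linarith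
        · simp only [g2_zero, g2_one]; linarith
      · push Not at h'
        left
        exact ⟨by simp; exact h1, by simp; exact h2, by simpa using h'⟩
  · rintro ((hx | hx) | hx)
    · have hx' : g1 x ∈ T' := hx
      obtain ⟨h1, h2, h3⟩ := hx'
      simp only [g1_zero, g1_one] at h1 h2 h3
      refine ⟨⟨by linarith, by linarith, by linarith⟩, ?_⟩
      rw [tt_succ1 k x (by linarith) h3]
      have := tt_le_one k (g1 x)
      linarith
    · have hx' : g2 x ∈ T' := hx
      obtain ⟨h1, h2, h3⟩ := hx'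
      simp only [g2_zero, g2_one] at h1 h2 h3
      refine ⟨⟨by linarith, by linarith, by linarith⟩, ?_⟩
      rw [tt_succ2 k x (by linarith) (by linarith)]
      have := tt_le_one k (g2 x)
      linarith
    · have hx' : g3 x ∈ R k (3 * s - 2) := hx
      obtain ⟨h1, h2, h3⟩ := R_sub k (3 * s - 2) (by linarith) hx'
      simp only [g3_zero, g3_one] at h1 h2 h3
      refine ⟨⟨by linarith, by linarith, by linarith⟩, ?_⟩
      rw [tt_succ3 k x (by linarith)]
      have := hx'.2
      linarith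

theorem g1_T'_sub : g1 ⁻¹' T' ⊆ T := by
  intro x hx
  have hx' : g1 x ∈ T' := hx
  obtain ⟨h1, h2, h3⟩ := hx'
  simp only [g1_zero, g1_one] at h1 h2 h3
  exact ⟨by linarith, by linarith, by linarith⟩

theorem g2_T'_sub : g2 ⁻¹' T' ⊆ T := by
  intro x hx
  have hx' : g2 x ∈ T' := hx
  obtain ⟨h1, h2, h3⟩ := hx'
  simp only [g2_zero, g2_one] at h1 h2 h3
  exact ⟨by linarith, by linarith, by linarith⟩

theorem g3_T'_sub : g3 ⁻¹' T' ⊆ T := by
  intro x hx
  have hx' : g3 x ∈ T' := hx
  obtain ⟨h1, h2, h3⟩ := hx'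
  simp only [g3_zero, g3_one] at h1 h2 h3
  exact ⟨by linarith, by linarith, by linarith⟩

theorem disj12 : Disjoint (g1 ⁻¹' T') (g2 ⁻¹' T') := by
  rw [Set.disjoint_left]
  intro x hx hy
  have hx' : g1 x ∈ T' := hx
  have hy' : g2 x ∈ T' := hy
  have h1 := hx'.2.2
  have h2 := hy'.1
  simp only [g1_zero, g1_one, g2_zero] at h1 h2
  linarith

theorem disj13 : Disjoint (g1 ⁻¹' T') (g3 ⁻¹' T') := by
  rw [Set.disjoint_left]
  intro x hx hy
  have hx' : g1 x ∈ T' := hx
  have hy' : g3 x ∈ T' := hy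
  have h0 := hx'.1
  have h1 := hx'.2.2
  have h2 := hy'.2.1
  simp only [g1_zero, g1_one, g3_one] at h0 h1 h2
  linarith

theorem disj23 : Disjoint (g2 ⁻¹' T') (g3 ⁻¹' T') := by
  rw [Set.disjoint_left]
  intro x hx hy
  have hx' : g2 x ∈ T' := hx
  have hy' : g3 x ∈ T' := hy
  have h1 := hx'.2.2
  have h2 := hy'.2.1
  simp only [g2_zero, g2_one, g3_one] at h1 h2
  linarith

theorem area_R (k : ℕ) : ∀ s, 0 ≤ s → s ≤ 1 →
    c * (s - (1 / 3) ^ k) ≤ volume.real (R k s) ∧ volume.real (R k s) ≤ c * s := by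
  have hc : 0 ≤ c := measureReal_nonneg
  induction k with
  | zero =>
    intro s hs0 hs
    have : R 0 s = ∅ := by
      ext x
      simp only [mem_empty_iff_false, iff_false]
      rintro ⟨_, h⟩
      rw [tt_zero] at h
      linarith
    rw [this, measureReal_empty]
    constructor
    · rw [pow_zero]
      nlinarith
    · positivity
  | succ k ih =>
    intro s hs0 hs
    by_cases h1 : s ≤ 1 / 3
    · rw [R_succ1 k s h1, real_g1]
      obtain ⟨h2, h3⟩ := ih (3 * s) (by linarith) (by linarith)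
      constructor
      · have : c * (s - (1 / 3) ^ (k + 1)) = c * (3 * s - (1 / 3) ^ k) / 3 := by
          rw [pow_succ]
          ring
        rw [this]
        linarith
      · linarith
    · push Not at h1
      by_cases h4 : s ≤ 2 / 3
      · obtain ⟨h2, h3⟩ := ih (3 * s - 1) (by linarith) (by linarith)
        have hsub : g2 ⁻¹' R k (3 * s - 1) ⊆ g2 ⁻¹' T' :=
          preimage_mono (R_sub k _ (by linarith))
        rw [R_succ2 k s h1 h4, measureReal_union (disj12.mono_right hsub)
          (g2_cont.measurable (R_meas k _ (by linarith))) (fin_of_sub g1_T'_sub)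
          (fin_of_sub (hsub.trans g2_T'_sub)), real_g1, real_g2]
        change _ ≤ c / 3 + _ ∧ c / 3 + _ ≤ _
        constructor
        · have : c * (s - (1 / 3) ^ (k + 1)) = c / 3 + c * (3 * s - 1 - (1 / 3) ^ k) / 3 := by
            rw [pow_succ]
            ring
          rw [this]
          linarith
        · linarith
      · push Not at h4
        obtain ⟨h2, h3⟩ := ih (3 * s - 2) (by linarith) (by linarith)
        have hsub : g3 ⁻¹' R k (3 * s - 2) ⊆ g3 ⁻¹' T' :=
          preimage_mono (R_sub k _ (by linarith))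
        have hd : Disjoint (g1 ⁻¹' T' ∪ g2 ⁻¹' T') (g3 ⁻¹' R k (3 * s - 2)) := by
          rw [Set.disjoint_union_left]
          exact ⟨disj13.mono_right hsub, disj23.mono_right hsub⟩
        rw [R_succ3 k s h4 hs, measureReal_union hd
          (g3_cont.measurable (R_meas k _ (by linarith)))
          (fin_of_sub (union_subset g1_T'_sub g2_T'_sub))
          (fin_of_sub (hsub.trans g3_T'_sub)),
          measureReal_union disj12 (g2_cont.measurable T'_meas) (fin_of_sub g1_T'_sub)
          (fin_of_sub g2_T'_sub), real_g1, real_g2, real_g3]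
        change _ ≤ c / 3 + c / 3 + _ ∧ c / 3 + c / 3 + _ ≤ _
        constructor
        · have : c * (s - (1 / 3) ^ (k + 1)) =
              c / 3 + c / 3 + c * (3 * s - 2 - (1 / 3) ^ k) / 3 := by
            rw [pow_succ]
            ring
          rw [this]
          linarith
        · linarith

theorem tau_lt_eq (s : ℝ) : {x | x ∈ T ∧ tau x < s} = ⋃ k, R k s := by
  ext x
  simp only [R, mem_iUnion, mem_ofPred_eq, tau_lt_iff]
  constructor
  · rintro ⟨h1, k, h2⟩
    exact ⟨k, h1, h2⟩
  · rintro ⟨k, h1, h2⟩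
    exact ⟨h1, k, h2⟩

theorem R_mono (s : ℝ) : Monotone fun k => R k s := by
  intro k l hkl x hx
  exact ⟨hx.1, (tt_anti x hkl).trans_lt hx.2⟩

theorem area_tau (s : ℝ) (hs0 : 0 ≤ s) (hs : s ≤ 1) :
    volume.real {x | x ∈ T ∧ tau x < s} = c * s := by
  rw [tau_lt_eq]
  have h1 : Tendsto (fun k => volume (R k s)) atTop (𝓝 (volume (⋃ k, R k s))) :=
    tendsto_measure_iUnion_atTop (R_mono s)
  have hfin : volume (⋃ k, R k s) ≠ ⊤ := by
    apply fin_of_sub
    apply iUnion_subset
    intro k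
    exact fun _ h => h.1
  have h2 : Tendsto (fun k => volume.real (R k s)) atTop (𝓝 (volume.real (⋃ k, R k s))) :=
    (ENNReal.tendsto_toReal hfin).comp h1
  have h3 : Tendsto (fun k => volume.real (R k s)) atTop (𝓝 (c * s)) := by
    have h4 : Tendsto (fun k : ℕ => c * (s - (1 / 3 : ℝ) ^ k)) atTop (𝓝 (c * (s - 0))) :=
      ((tendsto_pow_atTop_nhds_zero_of_lt_one (by norm_num) (by norm_num)).const_sub s).const_mul c
    rw [sub_zero] at h4
    exact tendsto_of_tendsto_of_tendsto_of_le_of_le h4 tendsto_const_nhds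
      (fun k => (area_R k s hs0 hs).1) (fun k => (area_R k s hs0 hs).2)
  exact tendsto_nhds_unique h2 h3

/-- The chord. -/
def Ch : Set E := {x | x ∈ T ∧ x 0 + x 1 = 1}

theorem Ch_pre : g3 ⁻¹' Ch = Ch := by
  ext x
  constructor
  · intro hx
    have hx' : g3 x ∈ Ch := hx
    obtain ⟨⟨h1, h2, h3⟩, h4⟩ := hx'
    simp only [g3_zero, g3_one] at h1 h2 h3 h4
    exact ⟨⟨h1, by linarith, by linarith⟩, by linarith⟩
  · rintro ⟨h1, h2⟩
    have := g3_chord x h2
    show g3 x ∈ Ch
    rw [this]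
    exact ⟨h1, h2⟩

theorem Ch_null : volume.real Ch = 0 := by
  have h := real_g3 Ch
  rw [Ch_pre] at h
  linarith

theorem T_area : volume.real T = c := by
  have h1 : T = T' ∪ Ch := by
    ext x
    constructor
    · intro hx
      rcases lt_or_eq_of_le hx.2.2 with h | h
      · exact Or.inl ⟨hx.1, hx.2.1, h⟩
      · exact Or.inr ⟨hx, h⟩
    · rintro (hx | hx)
      · exact T'_sub hx
      · exact hx.1
  have hCh : MeasurableSet Ch := by
    have h3 : IsClosed {x : E | x 0 + x 1 = 1} :=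
      isClosed_eq ((continuous_apply 0).add (continuous_apply 1)) continuous_const
    exact T_closed.measurableSet.inter h3.measurableSet
  have hd : Disjoint T' Ch := by
    rw [Set.disjoint_left]
    rintro x ⟨_, _, h⟩ ⟨_, h'⟩
    linarith
  rw [h1, measureReal_union hd hCh (fin_of_sub T'_sub) (fin_of_sub fun _ h => h.1), Ch_null,
    add_zero]
  rfl

theorem L_area (s : ℝ) (hs0 : 0 ≤ s) (hs : s ≤ 1) : volume.real (L s) = c * (1 - s) := by
  have h1 : T = L s ∪ {x | x ∈ T ∧ tau x < s} := by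
    ext x
    constructor
    · intro hx
      rcases le_or_gt s (tau x) with h | h
      · exact Or.inl ⟨hx, h⟩
      · exact Or.inr ⟨hx, h⟩
    · rintro (hx | hx)
      · exact hx.1
      · exact hx.1
  have hm : MeasurableSet {x | x ∈ T ∧ tau x < s} := by
    rw [tau_lt_eq]
    exact MeasurableSet.iUnion fun k => R_meas k s hs
  have hd : Disjoint (L s) {x | x ∈ T ∧ tau x < s} := by
    rw [Set.disjoint_left]
    rintro x ⟨_, h⟩ ⟨_, h'⟩
    linarith
  have h2 : volume.real T = volume.real (L s) + volume.real {x | x ∈ T ∧ tau x < s} := by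
    conv_lhs => rw [h1]
    exact measureReal_union hd hm (fin_of_sub fun _ h => h.1) (fin_of_sub fun _ h => h.1)
  rw [T_area, area_tau s hs0 hs] at h2
  linarith

theorem c_pos : 0 < c := by
  have h1 : (univ.pi fun _ : Fin 2 => Ioo (0 : ℝ) (1 / 2)) ⊆ T' := by
    intro x hx
    have h0 := hx 0 (mem_univ _)
    have h1 := hx 1 (mem_univ _)
    exact ⟨h0.1.le, h1.1.le, by linarith [h0.2, h1.2]⟩
  have h2 : 0 < volume T' := by
    refine lt_of_lt_of_le ?_ (measure_mono h1)
    rw [Real.volume_pi_Ioo]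
    simp only [sub_zero, Finset.prod_const, Finset.card_univ, Fintype.card_fin]
    exact ENNReal.pow_pos (ENNReal.ofReal_pos.mpr (by norm_num)) 2
  exact ENNReal.toReal_pos h2.ne' (fin_of_sub T'_sub)

theorem L_vol (s : ℝ) (hs0 : 0 ≤ s) (hs : s ≤ 1) :
    volume (L s) = ENNReal.ofReal (c * (1 - s)) := by
  rw [← L_area s hs0 hs, Measure.real, ENNReal.ofReal_toReal]
  exact fin_of_sub fun _ h => h.1

end Pool.Agent.R489.SPD
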