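import Pool.Agent.R489.SP.D1

/-! The corner cutting family of convex sets: the moving part. -/

set_option autoImplicit false

open MeasureTheory Set Filter Topology
open scoped ENNReal

namespace Pool.Agent.R489.SPD

variable {W : Type} [NormedAddCommGroup W] [NormedSpace ℝ W]

/-- Size of the cell moving at time `s`. -/
noncomputable def D : ℕ → W → W → ℝ → ℝ
  | 0, u, v, _ => ‖u‖ + ‖v‖
  | k + 1, u, v, s =>
    if s ≤ 1 / 3 then D k ((1 / 2 : ℝ) • u) ((2 / 3 : ℝ) • v) (3 * s)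
    else if s ≤ 2 / 3 then D k ((1 / 2 : ℝ) • u) ((2 / 3 : ℝ) • v - (1 / 2 : ℝ) • u) (3 * s - 1)
    else D k (u - (2 / 3 : ℝ) • v) ((1 / 3 : ℝ) • v) (3 * s - 2)

theorem D_zero (u v : W) (s : ℝ) : D 0 u v s = ‖u‖ + ‖v‖ := rfl

theorem D_succ1 (k : ℕ) (u v : W) (s : ℝ) (h : s ≤ 1 / 3) :
    D (k + 1) u v s = D k ((1 / 2 : ℝ) • u) ((2 / 3 : ℝ) • v) (3 * s) := by
  rw [D, if_pos h]

theorem D_succ2 (k : ℕ) (u v : W) (s : ℝ) (h : 1 / 3 < s) (h' : s ≤ 2 / 3) :
    D (k + 1) u v s =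
      D k ((1 / 2 : ℝ) • u) ((2 / 3 : ℝ) • v - (1 / 2 : ℝ) • u) (3 * s - 1) := by
  rw [D, if_neg (not_le.mpr h), if_pos h']

theorem D_succ3 (k : ℕ) (u v : W) (s : ℝ) (h : 2 / 3 < s) :
    D (k + 1) u v s = D k (u - (2 / 3 : ℝ) • v) ((1 / 3 : ℝ) • v) (3 * s - 2) := by
  rw [D, if_neg (not_le.mpr (by linarith)), if_neg (not_le.mpr h)]

theorem D_nonneg (k : ℕ) : ∀ (u v : W) (s : ℝ), 0 ≤ D k u v s := by
  induction k with
  | zero => intro u v s; rw [D_zero]; positivity
  | succ k ih =>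
    intro u v s
    rw [D]
    split_ifs
    · exact ih _ _ _
    · exact ih _ _ _
    · exact ih _ _ _

theorem D_meas (k : ℕ) : ∀ (u v : W), Measurable fun s => D k u v s := by
  induction k with
  | zero => intro u v; exact measurable_const
  | succ k ih =>
    intro u v
    have h1 := (ih ((1 / 2 : ℝ) • u) ((2 / 3 : ℝ) • v)).comp
      (show Measurable fun s : ℝ => 3 * s by fun_prop)
    have h2 := (ih ((1 / 2 : ℝ) • u) ((2 / 3 : ℝ) • v - (1 / 2 : ℝ) • u)).comp
      (show Measurable fun s : ℝ => 3 * s - 1 by fun_prop)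
    have h3 := (ih (u - (2 / 3 : ℝ) • v) ((1 / 3 : ℝ) • v)).comp
      (show Measurable fun s : ℝ => 3 * s - 2 by fun_prop)
    exact Measurable.ite measurableSet_Iic h1 (Measurable.ite measurableSet_Iic h2 h3)

/-- The cell at time `s` lies in a small set. -/
theorem cell (k : ℕ) : ∀ (u v : W) (s : ℝ), 0 < s → s < 1 → Irrational s →
    ∃ s1 s2 : ℝ, 0 < s1 ∧ s1 < s ∧ s < s2 ∧ s2 ≤ 1 ∧ ∃ a u' v' : W,
      D k u v s = ‖u'‖ + ‖v'‖ ∧ ∀ x ∈ T, s1 ≤ tau x → tau x < s2 →
        ∃ z ∈ T, x 0 • u + x 1 • v = a + z 0 • u' + z 1 • v' := by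
  induction k with
  | zero =>
    intro u v s h0 h1 _
    refine ⟨s / 2, 1, by linarith, by linarith, h1, le_rfl, 0, u, v, rfl, ?_⟩
    intro x hx _ _
    exact ⟨x, hx, by rw [zero_add]⟩
  | succ k ih =>
    intro u v s h0 h1 hirr
    have hne1 : s ≠ 1 / 3 := by
      intro h
      apply hirr
      exact ⟨1 / 3, by rw [h]; norm_num⟩
    have hne2 : s ≠ 2 / 3 := by
      intro h
      apply hirr
      exact ⟨2 / 3, by rw [h]; norm_num⟩
    have hirr3 : Irrational (3 * s) := by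
      have := hirr.ratCast_mul (q := 3) (by norm_num)
      simpa using this
    by_cases c1 : s ≤ 1 / 3
    · have c1' : s < 1 / 3 := lt_of_le_of_ne c1 hne1
      obtain ⟨s1, s2, k1, k2, k3, k4, a, u', v', k5, k6⟩ :=
        ih ((1 / 2 : ℝ) • u) ((2 / 3 : ℝ) • v) (3 * s) (by linarith) (by linarith) hirr3
      refine ⟨s1 / 3, s2 / 3, by linarith, by linarith, by linarith, by linarith, a, u', v', ?_, ?_⟩
      · rw [D_succ1 k u v s c1, k5]
      · intro x hx hx1 hx2
        obtain ⟨t1, t2, t3⟩ := hx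
        have e1 : x 0 + 3 / 2 * x 1 < 1 := by
          by_contra hcon
          push Not at hcon
          rw [tau_3 x hcon] at hx2
          have := tau_nonneg (g3 x)
          linarith
        have e2 : 2 * x 0 + 3 / 2 * x 1 < 1 := by
          by_contra hcon
          push Not at hcon
          rw [tau_2 x e1 hcon] at hx2
          have := tau_nonneg (g2 x)
          linarith
        rw [tau_1 x e1 e2] at hx1 hx2
        obtain ⟨z, hz, hz2⟩ := k6 (g1 x) ⟨by simp; exact t1, by simp; exact t2, by simpa using e2.le⟩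
          (by linarith) (by linarith)
        refine ⟨z, hz, ?_⟩
        rw [← hz2]
        simp only [g1_zero, g1_one]
        module
    · push Not at c1
      by_cases c2 : s ≤ 2 / 3
      · have c2' : s < 2 / 3 := lt_of_le_of_ne c2 hne2
        have hirr4 : Irrational (3 * s - 1) := by
          have := hirr3.sub_ratCast 1
          simpa using this
        obtain ⟨s1, s2, k1, k2, k3, k4, a, u', v', k5, k6⟩ :=
          ih ((1 / 2 : ℝ) • u) ((2 / 3 : ℝ) • v - (1 / 2 : ℝ) • u) (3 * s - 1) (by linarith)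
            (by linarith) hirr4
        refine ⟨(1 + s1) / 3, (1 + s2) / 3, by linarith, by linarith, by linarith, by linarith,
          (1 / 2 : ℝ) • u + a, u', v', ?_, ?_⟩
        · rw [D_succ2 k u v s c1 c2, k5]
        · intro x hx hx1 hx2
          obtain ⟨t1, t2, t3⟩ := hx
          have e1 : x 0 + 3 / 2 * x 1 < 1 := by
            by_contra hcon
            push Not at hcon
            rw [tau_3 x hcon] at hx2
            have := tau_nonneg (g3 x)
            linarith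
          have e2 : 1 ≤ 2 * x 0 + 3 / 2 * x 1 := by
            by_contra hcon
            push Not at hcon
            rw [tau_1 x e1 hcon] at hx1
            have := tau_le_one (g1 x)
            linarith
          rw [tau_2 x e1 e2] at hx1 hx2
          obtain ⟨z, hz, hz2⟩ := k6 (g2 x)
            ⟨by simp only [g2_zero]; linarith, by simp; exact t2,
              by simp only [g2_zero, g2_one]; linarith⟩
            (by linarith) (by linarith)
          refine ⟨z, hz, ?_⟩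
          have e3 : (1 / 2 : ℝ) • u + a + z 0 • u' + z 1 • v' =
              (1 / 2 : ℝ) • u + (a + z 0 • u' + z 1 • v') := by abel
          rw [e3, ← hz2]
          simp only [g2_zero, g2_one]
          module
      · push Not at c2
        have hirr4 : Irrational (3 * s - 2) := by
          have := hirr3.sub_ratCast 2
          simpa using this
        obtain ⟨s1, s2, k1, k2, k3, k4, a, u', v', k5, k6⟩ :=
          ih (u - (2 / 3 : ℝ) • v) ((1 / 3 : ℝ) • v) (3 * s - 2) (by linarith)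
            (by linarith) hirr4
        refine ⟨(2 + s1) / 3, (2 + s2) / 3, by linarith, by linarith, by linarith, by linarith,
          (2 / 3 : ℝ) • v + a, u', v', ?_, ?_⟩
        · rw [D_succ3 k u v s c2, k5]
        · intro x hx hx1 hx2
          obtain ⟨t1, t2, t3⟩ := hx
          have e1 : 1 ≤ x 0 + 3 / 2 * x 1 := by
            by_contra hcon
            push Not at hcon
            by_cases hc2 : 1 ≤ 2 * x 0 + 3 / 2 * x 1
            · rw [tau_2 x hcon hc2] at hx1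
              have := tau_le_one (g2 x)
              linarith
            · push Not at hc2
              rw [tau_1 x hcon hc2] at hx1
              have := tau_le_one (g1 x)
              linarith
          rw [tau_3 x e1] at hx1 hx2
          obtain ⟨z, hz, hz2⟩ := k6 (g3 x)
            ⟨by simp; exact t1, by simp only [g3_one]; linarith,
              by simp only [g3_zero, g3_one]; linarith⟩
            (by linarith) (by linarith)
          refine ⟨z, hz, ?_⟩
          have e3 : (2 / 3 : ℝ) • v + a + z 0 • u' + z 1 • v' =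
              (2 / 3 : ℝ) • v + (a + z 0 • u' + z 1 • v') := by abel
          rw [e3, ← hz2]
          simp only [g3_zero, g3_one]
          module

theorem norm_cell (z : E) (hz : z ∈ T) (a u' v' : W) :
    a + z 0 • u' + z 1 • v' ∈ Metric.closedBall a (‖u'‖ + ‖v'‖) := by
  rw [mem_closedBall_iff_norm]
  have e : a + z 0 • u' + z 1 • v' - a = z 0 • u' + z 1 • v' := by abel
  rw [e]
  obtain ⟨h1, h2, h3⟩ := hz
  calc ‖z 0 • u' + z 1 • v'‖ ≤ ‖z 0 • u'‖ + ‖z 1 • v'‖ := norm_add_le _ _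
    _ = z 0 * ‖u'‖ + z 1 * ‖v'‖ := by
      rw [norm_smul, norm_smul, Real.norm_of_nonneg h1, Real.norm_of_nonneg h2]
    _ ≤ 1 * ‖u'‖ + 1 * ‖v'‖ := by
      gcongr
      · linarith
      · linarith
    _ = _ := by ring

/-! ### The average size of the cell -/

theorem scale_lint (f : ℝ → ℝ≥0∞) (hf : Measurable f) (j : ℝ) :
    ∫⁻ s in Ioc (j / 3) ((j + 1) / 3), f (3 * s - j) =
      ENNReal.ofReal (1 / 3) * ∫⁻ s in Ioc (0 : ℝ) 1, f s := by
  have hmap : Measure.map (fun s : ℝ => 3 * s - j) volume = ENNReal.ofReal (1 / 3) • volume := by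
    have h1 : (fun s : ℝ => 3 * s - j) = (fun s : ℝ => s - j) ∘ (fun s : ℝ => 3 * s) := rfl
    rw [h1, ← Measure.map_map (by fun_prop) (by fun_prop),
      Real.map_volume_mul_left (by norm_num : (3 : ℝ) ≠ 0), Measure.map_smul]
    have h2 : Measure.map (fun s : ℝ => s - j) volume = volume :=
      (measurePreserving_sub_right volume j).map_eq
    rw [h2]
    congr 2
    rw [abs_of_pos (by norm_num)]
    norm_num
  have hpre : (fun s : ℝ => 3 * s - j) ⁻¹' Ioc 0 1 = Ioc (j / 3) ((j + 1) / 3) := by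
    ext s
    constructor
    · rintro ⟨h1, h2⟩
      simp only at h1 h2
      exact ⟨by linarith, by linarith⟩
    · rintro ⟨h1, h2⟩
      constructor
      · show 0 < 3 * s - j
        linarith
      · show 3 * s - j ≤ 1
        linarith
  have h3 := setLIntegral_map (μ := (volume : Measure ℝ)) (measurableSet_Ioc (a := (0 : ℝ)) (b := 1))
    hf (show Measurable fun s : ℝ => 3 * s - j by fun_prop)
  rw [hpre, hmap, Measure.restrict_smul, lintegral_smul_measure, smul_eq_mul] at h3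
  exact h3.symm

theorem avg_D (k : ℕ) : ∀ (u v : W), ∫⁻ s in Ioc (0 : ℝ) 1, ENNReal.ofReal (D k u v s) ≤
    ENNReal.ofReal ((5 / 6) ^ k * (‖u‖ + ‖v‖)) := by
  induction k with
  | zero =>
    intro u v
    simp only [D_zero, pow_zero, one_mul, lintegral_const, Measure.restrict_apply MeasurableSet.univ,
      univ_inter, Real.volume_Ioc, sub_zero, ENNReal.ofReal_one, mul_one]
    exact le_rfl
  | succ k ih =>
    intro u v
    have hcov : Ioc (0 : ℝ) 1 ⊆ (Ioc (0 / 3) ((0 + 1) / 3) ∪ Ioc (1 / 3) ((1 + 1) / 3)) ∪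
        Ioc (2 / 3) ((2 + 1) / 3) := by
      rintro s ⟨h1, h2⟩
      by_cases c1 : s ≤ 1 / 3
      · left
        left
        exact ⟨by linarith, by linarith⟩
      · push Not at c1
        by_cases c2 : s ≤ 2 / 3
        · left
          right
          exact ⟨c1, by linarith⟩
        · push Not at c2
          right
          exact ⟨c2, by linarith⟩
    have e1 : ∫⁻ s in Ioc ((0 : ℝ) / 3) ((0 + 1) / 3), ENNReal.ofReal (D (k + 1) u v s) =
        ENNReal.ofReal (1 / 3) * ∫⁻ s in Ioc (0 : ℝ) 1,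
          ENNReal.ofReal (D k ((1 / 2 : ℝ) • u) ((2 / 3 : ℝ) • v) s) := by
      rw [← scale_lint _ (D_meas k _ _).ennreal_ofReal 0]
      apply setLIntegral_congr_fun measurableSet_Ioc
      rintro s ⟨h1, h2⟩
      show ENNReal.ofReal (D (k + 1) u v s) =
        ENNReal.ofReal (D k ((1 / 2 : ℝ) • u) ((2 / 3 : ℝ) • v) (3 * s - 0))
      rw [D_succ1 k u v s (by linarith), sub_zero]
    have e2 : ∫⁻ s in Ioc ((1 : ℝ) / 3) ((1 + 1) / 3), ENNReal.ofReal (D (k + 1) u v s) =
        ENNReal.ofReal (1 / 3) * ∫⁻ s in Ioc (0 : ℝ) 1,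
          ENNReal.ofReal (D k ((1 / 2 : ℝ) • u) ((2 / 3 : ℝ) • v - (1 / 2 : ℝ) • u) s) := by
      rw [← scale_lint _ (D_meas k _ _).ennreal_ofReal 1]
      apply setLIntegral_congr_fun measurableSet_Ioc
      rintro s ⟨h1, h2⟩
      show ENNReal.ofReal (D (k + 1) u v s) = _
      rw [D_succ2 k u v s h1 (by linarith)]
    have e3 : ∫⁻ s in Ioc ((2 : ℝ) / 3) ((2 + 1) / 3), ENNReal.ofReal (D (k + 1) u v s) =
        ENNReal.ofReal (1 / 3) * ∫⁻ s in Ioc (0 : ℝ) 1,
          ENNReal.ofReal (D k (u - (2 / 3 : ℝ) • v) ((1 / 3 : ℝ) • v) s) := by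
      rw [← scale_lint _ (D_meas k _ _).ennreal_ofReal 2]
      apply setLIntegral_congr_fun measurableSet_Ioc
      rintro s ⟨h1, h2⟩
      show ENNReal.ofReal (D (k + 1) u v s) = _
      rw [D_succ3 k u v s h1]
    have hnu : (0 : ℝ) ≤ ‖u‖ := norm_nonneg u
    have hnv : (0 : ℝ) ≤ ‖v‖ := norm_nonneg v
    have n1 : ‖(1 / 2 : ℝ) • u‖ = 1 / 2 * ‖u‖ := by
      rw [norm_smul, Real.norm_of_nonneg (by norm_num)]
    have n2 : ‖(2 / 3 : ℝ) • v‖ = 2 / 3 * ‖v‖ := by
      rw [norm_smul, Real.norm_of_nonneg (by norm_num)]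
    have n3 : ‖(1 / 3 : ℝ) • v‖ = 1 / 3 * ‖v‖ := by
      rw [norm_smul, Real.norm_of_nonneg (by norm_num)]
    have n4 : ‖(2 / 3 : ℝ) • v - (1 / 2 : ℝ) • u‖ ≤ 2 / 3 * ‖v‖ + 1 / 2 * ‖u‖ := by
      rw [← n1, ← n2]
      exact norm_sub_le _ _
    have n5 : ‖u - (2 / 3 : ℝ) • v‖ ≤ ‖u‖ + 2 / 3 * ‖v‖ := by
      rw [← n2]
      exact norm_sub_le _ _
    have hp : (0 : ℝ) ≤ (5 / 6) ^ k := by positivity
    calc ∫⁻ s in Ioc (0 : ℝ) 1, ENNReal.ofReal (D (k + 1) u v s)
        ≤ ∫⁻ s in (Ioc (0 / 3) ((0 + 1) / 3) ∪ Ioc (1 / 3) ((1 + 1) / 3)) ∪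
            Ioc (2 / 3) ((2 + 1) / 3), ENNReal.ofReal (D (k + 1) u v s) :=
          lintegral_mono_set hcov
      _ ≤ (∫⁻ s in Ioc (0 / 3) ((0 + 1) / 3), ENNReal.ofReal (D (k + 1) u v s)) +
          (∫⁻ s in Ioc (1 / 3) ((1 + 1) / 3), ENNReal.ofReal (D (k + 1) u v s)) +
          ∫⁻ s in Ioc (2 / 3) ((2 + 1) / 3), ENNReal.ofReal (D (k + 1) u v s) := by
          refine (lintegral_union_le _ _ _).trans ?_
          gcongr
          exact lintegral_union_le _ _ _
      _ ≤ ENNReal.ofReal (1 / 3) * ENNReal.ofReal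
            ((5 / 6) ^ k * (‖(1 / 2 : ℝ) • u‖ + ‖(2 / 3 : ℝ) • v‖)) +
          ENNReal.ofReal (1 / 3) * ENNReal.ofReal
            ((5 / 6) ^ k * (‖(1 / 2 : ℝ) • u‖ + ‖(2 / 3 : ℝ) • v - (1 / 2 : ℝ) • u‖)) +
          ENNReal.ofReal (1 / 3) * ENNReal.ofReal
            ((5 / 6) ^ k * (‖u - (2 / 3 : ℝ) • v‖ + ‖(1 / 3 : ℝ) • v‖)) := by
          rw [e1, e2, e3]
          gcongr
          · exact ih _ _
          · exact ih _ _
          · exact ih _ _
      _ = ENNReal.ofReal (1 / 3 * ((5 / 6) ^ k * (‖(1 / 2 : ℝ) • u‖ + ‖(2 / 3 : ℝ) • v‖)) +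
            1 / 3 * ((5 / 6) ^ k * (‖(1 / 2 : ℝ) • u‖ + ‖(2 / 3 : ℝ) • v - (1 / 2 : ℝ) • u‖)) +
            1 / 3 * ((5 / 6) ^ k * (‖u - (2 / 3 : ℝ) • v‖ + ‖(1 / 3 : ℝ) • v‖))) := by
          rw [← ENNReal.ofReal_mul (by norm_num), ← ENNReal.ofReal_mul (by norm_num),
            ← ENNReal.ofReal_mul (by norm_num), ← ENNReal.ofReal_add (by positivity)
            (by positivity), ← ENNReal.ofReal_add (by positivity) (by positivity)]
      _ ≤ ENNReal.ofReal ((5 / 6) ^ (k + 1) * (‖u‖ + ‖v‖)) := by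
          apply ENNReal.ofReal_le_ofReal
          have key : (‖(1 / 2 : ℝ) • u‖ + ‖(2 / 3 : ℝ) • v‖) +
              (‖(1 / 2 : ℝ) • u‖ + ‖(2 / 3 : ℝ) • v - (1 / 2 : ℝ) • u‖) +
              (‖u - (2 / 3 : ℝ) • v‖ + ‖(1 / 3 : ℝ) • v‖) ≤ 5 / 2 * (‖u‖ + ‖v‖) := by
            rw [n1, n2, n3]
            linarith
          have h2 := mul_le_mul_of_nonneg_left key hp
          rw [pow_succ]
          linarith

theorem ae_small (u v : W) : ∀ᵐ s : ℝ, s ∈ Ioc (0 : ℝ) 1 → ∀ ρ > 0, ∃ k, D k u v s < ρ := by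
  have h1 : ∫⁻ s in Ioc (0 : ℝ) 1, ⨅ k, ENNReal.ofReal (D k u v s) = 0 := by
    apply le_antisymm _ zero_le
    have h2 : ∀ k : ℕ, ∫⁻ s in Ioc (0 : ℝ) 1, ⨅ k, ENNReal.ofReal (D k u v s) ≤
        ENNReal.ofReal ((5 / 6) ^ k * (‖u‖ + ‖v‖)) := by
      intro k
      exact (lintegral_mono fun s => iInf_le _ k).trans (avg_D k u v)
    have h3 : Tendsto (fun k : ℕ => ENNReal.ofReal ((5 / 6) ^ k * (‖u‖ + ‖v‖))) atTop (𝓝 0) := by
      rw [← ENNReal.ofReal_zero]
      apply ENNReal.tendsto_ofReal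
      have := (tendsto_pow_atTop_nhds_zero_of_lt_one (r := (5 / 6 : ℝ)) (by norm_num)
        (by norm_num)).mul_const (‖u‖ + ‖v‖)
      rwa [zero_mul] at this
    exact ge_of_tendsto' h3 h2
  have hm : Measurable fun s => ⨅ k, ENNReal.ofReal (D k u v s) :=
    Measurable.iInf fun k => (D_meas k u v).ennreal_ofReal
  rw [lintegral_eq_zero_iff hm] at h1
  have h4 := (ae_restrict_iff' (measurableSet_Ioc)).mp h1
  filter_upwards [h4] with s hs hs1 ρ hρ
  have h5 : ⨅ k, ENNReal.ofReal (D k u v s) = 0 := hs hs1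
  have h6 : ⨅ k, ENNReal.ofReal (D k u v s) < ENNReal.ofReal ρ := by
    rw [h5]
    exact ENNReal.ofReal_pos.mpr hρ
  obtain ⟨k, hk⟩ := iInf_lt_iff.mp h6
  exact ⟨k, (ENNReal.ofReal_lt_ofReal_iff hρ).mp hk⟩

/-- For almost every time only a small set moves. -/
theorem ae_cell (u v : W) : ∀ᵐ s : ℝ, s ∈ Ioo (0 : ℝ) 1 → ∀ ρ > 0, ∃ s1 s2 : ℝ,
    0 < s1 ∧ s1 < s ∧ s < s2 ∧ s2 ≤ 1 ∧ ∃ a : W, ∀ x ∈ T, s1 ≤ tau x → tau x < s2 →
      x 0 • u + x 1 • v ∈ Metric.closedBall a ρ := by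
  have hirr : ∀ᵐ s : ℝ, Irrational s := by
    rw [ae_iff]
    have : {s : ℝ | ¬ Irrational s} = range ((↑) : ℚ → ℝ) := by
      ext s
      simp [Irrational]
    rw [this]
    exact (countable_range _).measure_zero _
  filter_upwards [ae_small u v, hirr] with s hs hi hs1 ρ hρ
  obtain ⟨k, hk⟩ := hs ⟨hs1.1, hs1.2.le⟩ ρ hρ
  obtain ⟨s1, s2, h1, h2, h3, h4, a, u', v', h5, h6⟩ := cell k u v s hs1.1 hs1.2 hi
  refine ⟨s1, s2, h1, h2, h3, h4, a, ?_⟩
  intro x hx hx1 hx2
  obtain ⟨z, hz, hz2⟩ := h6 x hx hx1 hx2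
  rw [hz2]
  exact Metric.closedBall_subset_closedBall (by rw [← h5]; exact hk.le) (norm_cell z hz a u' v')

end Pool.Agent.R489.SPD
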