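import Pool.Agent.R921.SP.Defs
import Pool.Agent.R489.SP.D2
import Pool.Agent.R489.SP.D3

/-! SP-D: a good family with one moving point exists. -/

set_option autoImplicit false

open MeasureTheory Set Filter Topology
open scoped ENNReal Pointwise

namespace Pool.Agent.R489.SPD

open Pool.Agent.R921.SP

/-- The scaling factor. -/
noncomputable def lam : ℝ := √(Real.pi / c)

theorem lam_pos : 0 < lam := Real.sqrt_pos.mpr (div_pos Real.pi_pos c_pos)

theorem lam_sq : lam ^ 2 * c = Real.pi := by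
  rw [lam, Real.sq_sqrt (div_pos Real.pi_pos c_pos).le]
  exact div_mul_cancel₀ _ c_pos.ne'

/-- The linear map to the Euclidean plane. -/
noncomputable def Phi (y : E) : Pl := WithLp.toLp 2 (lam • y)

theorem Phi_inj : Function.Injective Phi := by
  intro x y h
  have h1 : lam • x = lam • y := by
    have := congrArg (WithLp.ofLp) h
    exact this
  exact smul_right_injective _ lam_pos.ne' h1

theorem Phi_cont : Continuous Phi :=
  (PiLp.continuous_toLp 2 _).comp (continuous_const_smul lam)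

theorem Phi_comb (x y : E) (a b : ℝ) : Phi (a • x + b • y) = a • Phi x + b • Phi y := by
  ext i
  simp only [Phi, PiLp.add_apply, PiLp.smul_apply, Pi.add_apply, Pi.smul_apply, smul_eq_mul]
  ring

/-- The first basis vector. -/
noncomputable def uu : Pl := WithLp.toLp 2 ![lam, 0]

/-- The second basis vector. -/
noncomputable def vv : Pl := WithLp.toLp 2 ![0, lam]

theorem Phi_eq (y : E) : Phi y = y 0 • uu + y 1 • vv := by
  ext i
  fin_cases i
  · show lam * y 0 = y 0 * lam + y 1 * 0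
    ring
  · show lam * y 1 = y 0 * 0 + y 1 * lam
    ring

theorem Phi_vol (S : Set E) : volume (Phi '' S) = ENNReal.ofReal (lam ^ 2) * volume S := by
  have h1 : Phi '' S = (WithLp.ofLp : Pl → E) ⁻¹' (lam • S) := by
    ext p
    constructor
    · rintro ⟨y, hy, rfl⟩
      exact ⟨y, hy, rfl⟩
    · rintro ⟨y, hy, h⟩
      refine ⟨y, hy, ?_⟩
      have h' : lam • y = WithLp.ofLp p := h
      rw [Phi, h']
  rw [h1]
  have h2 := (EuclideanSpace.volume_preserving_symm_measurableEquiv_toLp (Fin 2)).measure_preimage_equiv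
    (lam • S)
  have h3 : volume ((WithLp.ofLp : Pl → E) ⁻¹' (lam • S)) = volume (lam • S) := h2
  rw [h3, Measure.addHaar_smul_of_nonneg _ lam_pos.le]
  simp

/-- The good family. -/
noncomputable def K (r : ℝ) : Set Pl := Phi '' L ((max r 0) ^ 2)

theorem L_anti {s s' : ℝ} (h : s ≤ s') : L s' ⊆ L s := fun _ hx => ⟨hx.1, h.trans hx.2⟩

theorem sq_mono {r r' : ℝ} (h : r ≤ r') : (max r 0) ^ 2 ≤ (max r' 0) ^ 2 := by
  have h1 : 0 ≤ max r 0 := le_max_right _ _
  have h2 : max r 0 ≤ max r' 0 := max_le_max_right 0 h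
  gcongr

theorem K_left (r : ℝ) (x : Pl) (h : ∀ r' < r, x ∈ K r') : x ∈ K r := by
  obtain ⟨y, hy, hyx⟩ := h (r - 1) (by linarith)
  refine ⟨y, ⟨hy.1, ?_⟩, hyx⟩
  have h1 : ∀ r' < r, (max r' 0) ^ 2 ≤ tau y := by
    intro r' hr'
    obtain ⟨y', hy', hyx'⟩ := h r' hr'
    have : y' = y := Phi_inj (hyx'.trans hyx.symm)
    rw [this] at hy'
    exact hy'.2
  have h2 : Tendsto (fun r' : ℝ => (max r' 0) ^ 2) (𝓝[<] r) (𝓝 ((max r 0) ^ 2)) := by
    have hc : Continuous fun r' : ℝ => (max r' 0) ^ 2 := by fun_prop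
    exact (hc.tendsto r).mono_left nhdsWithin_le_nhds
  exact le_of_tendsto h2 (eventually_nhdsWithin_of_forall h1)

theorem K_small : ∀ᵐ r : ℝ, r ∈ Ioo (0 : ℝ) 1 → ∀ ρ > 0, ∃ r1 r2, r1 < r ∧ r < r2 ∧
    ∃ cc : Fin 1 → Pl, K r1 \ K r2 ⊆ ⋃ i, Metric.closedBall (cc i) ρ := by
  have h1 := ae_cell uu vv
  rw [ae_iff] at h1
  set Z : Set ℝ := {s : ℝ | ¬ (s ∈ Ioo (0 : ℝ) 1 → ∀ ρ > 0, ∃ s1 s2 : ℝ,
    0 < s1 ∧ s1 < s ∧ s < s2 ∧ s2 ≤ 1 ∧ ∃ a : Pl, ∀ x ∈ T, s1 ≤ tau x → tau x < s2 →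
      x 0 • uu + x 1 • vv ∈ Metric.closedBall a ρ)} with hZ
  have h2 : volume (Z ∩ Ioi 0) = 0 := measure_mono_null inter_subset_left h1
  have h3 : DifferentiableOn ℝ Real.sqrt (Z ∩ Ioi 0) := by
    intro s hs
    exact (Real.hasDerivAt_sqrt (ne_of_gt hs.2)).differentiableAt.differentiableWithinAt
  have h4 := addHaar_image_eq_zero_of_differentiableOn_of_addHaar_eq_zero volume h3 h2
  rw [ae_iff]
  refine measure_mono_null ?_ h4
  intro r hr
  have hr' : ¬ (r ∈ Ioo (0 : ℝ) 1 → ∀ ρ > 0, ∃ r1 r2, r1 < r ∧ r < r2 ∧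
    ∃ cc : Fin 1 → Pl, K r1 \ K r2 ⊆ ⋃ i, Metric.closedBall (cc i) ρ) := hr
  rw [Classical.not_imp] at hr'
  obtain ⟨⟨hr0, hr1⟩, hr2⟩ := hr'
  refine ⟨r ^ 2, ⟨?_, mem_Ioi.mpr (by positivity)⟩, Real.sqrt_sq hr0.le⟩
  intro hcon
  apply hr2
  intro ρ hρ
  obtain ⟨s1, s2, k1, k2, k3, k4, a, k5⟩ := hcon ⟨by positivity, by nlinarith⟩ ρ hρ
  refine ⟨√s1, √s2, ?_, ?_, fun _ => a, ?_⟩
  · rw [← Real.sqrt_sq hr0.le]
    exact Real.sqrt_lt_sqrt k1.le k2
  · rw [← Real.sqrt_sq hr0.le]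
    exact Real.sqrt_lt_sqrt (by positivity) k3
  · rintro _ ⟨⟨x, hx, rfl⟩, h5⟩
    rw [mem_iUnion]
    refine ⟨0, ?_⟩
    rw [max_eq_left (Real.sqrt_nonneg _), Real.sq_sqrt k1.le] at hx
    rw [Phi_eq]
    apply k5 x hx.1 hx.2
    by_contra hcon2
    apply h5
    refine ⟨x, ⟨hx.1, ?_⟩, rfl⟩
    rw [max_eq_left (Real.sqrt_nonneg _), Real.sq_sqrt (by linarith)]
    exact not_lt.mp hcon2

theorem K_good : Good 1 K where
  compact r := (L_compact _).image Phi_cont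
  convex r := by
    rintro _ ⟨x, hx, rfl⟩ _ ⟨y, hy, rfl⟩ a b ha hb hab
    exact ⟨a • x + b • y, L_convex _ hx hy ha hb hab, Phi_comb x y a b⟩
  anti r r' h := image_mono (L_anti (sq_mono h))
  left := K_left
  nonempty r hr := by
    refine ⟨Phi ![1, 0], ![1, 0], ⟨?_, ?_⟩, rfl⟩
    · exact ⟨by norm_num, by norm_num, by norm_num⟩
    · rw [tau_chord ![1, 0] ⟨by norm_num, by norm_num, by norm_num⟩ (by norm_num)]
      have h1 : 0 ≤ max r 0 := le_max_right _ _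
      have h2 : max r 0 ≤ 1 := max_le hr zero_le_one
      exact pow_le_one₀ h1 h2
  empty r hr := by
    have h1 : max r 0 = r := max_eq_left (by linarith)
    rw [K, h1, L_empty _ (by nlinarith), image_empty]
  area r hr := by
    obtain ⟨h0, h1⟩ := hr
    rw [K, Phi_vol, max_eq_left h0, L_vol _ (by positivity) (by nlinarith),
      ← ENNReal.ofReal_mul (by positivity)]
    congr 1
    rw [← mul_assoc, lam_sq]
  small := K_small

/-- SP-D. -/
theorem stmtD : StmtD := ⟨K, K_good⟩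

end Pool.Agent.R489.SPD
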